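import Pool.Agent.Y41.BT.Two

/-!
The exploration path near the free part of the bottom side: bounds for the weak limits.
-/

set_option autoImplicit false
set_option maxHeartbeats 1000000

namespace Pool.Agent.Y41.BT

open H974 H973 H934E MeasureTheory TopologicalSpace Filter Topology Metric Set
open Pool.Agent.TH966.GB
open scoped ENNReal NNReal

/-- From the discrete bounds to the limit, for the law of the trace. -/
theorem bds_trace (R : Rect) {δ : ℕ → ℝ} (hδ : ∀ i, 0 < δ i)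
    {μ : ProbabilityMeasure (NonemptyCompacts ℂ)}
    (hμ : Tendsto (fun i => R.law (hδ i)) atTop (𝓝 μ)) {α c C r0 : ℝ} (hα : 0 < α)
    (hC : 0 < C) {A : Set ℂ}
    (h1 : ∀ z ∈ A, ∀ r : ℝ, 0 < r → r ≤ r0 → ∀ᶠ i in atTop,
      c * r ^ α ≤ Q (R.edges (δ i)) (fun F => (R.path (δ i) F ∩ closedBall z r).Nonempty))
    (h2 : ∀ z ∈ A, ∀ w ∈ A, ∀ s : ℝ, 0 < s → s ≤ 2 * r0 → ∀ᶠ i in atTop,
      Q (R.edges (δ i)) (fun F => (R.path (δ i) F ∩ ball z s).Nonempty ∧
        (R.path (δ i) F ∩ ball w s).Nonempty) ≤ C * s ^ (2 * α) * (max (dist z w) s) ^ (-α)) :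
    Bds (μ : Measure (NonemptyCompacts ℂ)) (fun K : NonemptyCompacts ℂ => (K : Set ℂ)) α A c
      (C * 2 ^ (2 * α)) r0 := by
  constructor
  · intro z hz r hr hr0
    have hc : IsClosed (Pool.Agent.TH966.HD.Hit (fun K : NonemptyCompacts ℂ => (K : Set ℂ)) z r) :=
      NonemptyCompacts.isClosed_inter_nonempty_of_isClosed Metric.isClosed_closedBall
    have h := R.closed_ge hδ hμ hc (h1 z hz r hr hr0)
    exact (ENNReal.ofReal_le_iff_le_toReal (measure_ne_top _ _)).mp h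
  · intro z hz w hw r hr hr0
    have hm0 : 0 < max (dist z w) r := lt_max_of_lt_right hr
    have ho : IsOpen ({K : NonemptyCompacts ℂ | ((K : Set ℂ) ∩ Metric.ball z (2 * r)).Nonempty} ∩
        {K : NonemptyCompacts ℂ | ((K : Set ℂ) ∩ Metric.ball w (2 * r)).Nonempty}) :=
      (NonemptyCompacts.isOpen_inter_nonempty_of_isOpen Metric.isOpen_ball).inter
        (NonemptyCompacts.isOpen_inter_nonempty_of_isOpen Metric.isOpen_ball)
    have h := R.open_le hδ hμ ho (h2 z hz w hw (2 * r) (by linarith) (by linarith))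
    have h3 : (μ : Measure (NonemptyCompacts ℂ)).real
        (Pool.Agent.TH966.HD.Hit (fun K : NonemptyCompacts ℂ => (K : Set ℂ)) z r ∩
          Pool.Agent.TH966.HD.Hit (fun K : NonemptyCompacts ℂ => (K : Set ℂ)) w r) ≤
        C * (2 * r) ^ (2 * α) * (max (dist z w) (2 * r)) ^ (-α) := by
      apply ENNReal.toReal_le_of_le_ofReal (by positivity)
      refine (measure_mono ?_).trans h
      rintro K ⟨⟨x, hx1, hx2⟩, ⟨y, hy1, hy2⟩⟩
      rw [Metric.mem_closedBall] at hx2 hy2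
      refine ⟨⟨x, hx1, ?_⟩, ⟨y, hy1, ?_⟩⟩
      · rw [Metric.mem_ball]
        linarith
      · rw [Metric.mem_ball]
        linarith
    refine h3.trans ?_
    have e1 : (max (dist z w) (2 * r)) ^ (-α) ≤ (max (dist z w) r) ^ (-α) :=
      Real.rpow_le_rpow_of_nonpos hm0 (max_le_max le_rfl (by linarith)) (by linarith)
    rw [Real.mul_rpow (by norm_num) hr.le]
    calc C * (2 ^ (2 * α) * r ^ (2 * α)) * (max (dist z w) (2 * r)) ^ (-α)
        ≤ C * (2 ^ (2 * α) * r ^ (2 * α)) * (max (dist z w) r) ^ (-α) := by gcongr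
      _ = _ := by ring

/-- The free part of the bottom side. -/
def side (R : Rect) : Set ℂ := {z | z.im = 0 ∧ 0 < z.re ∧ z.re < R.B}

/-- Bounds for the limits of the trace on compact subsets of the free part of the bottom side. -/
theorem side_bds (R : Rect) {A : Set ℂ} (hAc : IsCompact A) (hAD : A ⊆ side R) :
    ∃ c C r0 : ℝ, 0 < c ∧ 0 < C ∧ 0 < r0 ∧ ∀ (δ : ℕ → ℝ) (hδ : ∀ i, 0 < δ i),
      Tendsto δ atTop (𝓝 0) → ∀ μ : ProbabilityMeasure (NonemptyCompacts ℂ),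
        Tendsto (fun i => R.law (hδ i)) atTop (𝓝 μ) →
        Bds (μ : Measure (NonemptyCompacts ℂ)) (fun K : NonemptyCompacts ℂ => (K : Set ℂ))
          (1 / 3) A c C r0 := by
  obtain ⟨η, hη0, hηH, hη⟩ : ∃ η : ℝ, 0 < η ∧ η ≤ R.H ∧ ∀ z ∈ A, η ≤ z.re ∧ η ≤ R.B - z.re := by
    rcases A.eq_empty_or_nonempty with rfl | hne
    · exact ⟨R.H, R.hH, le_rfl, fun z hz => absurd hz (Set.notMem_empty z)⟩
    · obtain ⟨z1, hz1, h1⟩ := hAc.exists_isMinOn hne Complex.continuous_re.continuousOn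
      obtain ⟨z2, hz2, h2⟩ := hAc.exists_isMaxOn hne Complex.continuous_re.continuousOn
      refine ⟨min R.H (min z1.re (R.B - z2.re)), lt_min R.hH (lt_min (hAD hz1).2.1
        (by linarith [(hAD hz2).2.2])), min_le_left _ _, fun z hz => ⟨?_, ?_⟩⟩
      · exact (min_le_right _ _).trans ((min_le_left _ _).trans (h1 hz))
      · have h3 : z.re ≤ z2.re := h2 hz
        exact (min_le_right _ _).trans ((min_le_right _ _).trans (by linarith))
  obtain ⟨M, hM⟩ := Metric.isBounded_iff.mp hAc.isBounded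
  obtain ⟨c, hc, h1⟩ := one_half_mesh R hη0 hηH
  obtain ⟨C, hC, h2⟩ := two_half_mesh
  obtain ⟨M1, hM1⟩ : ∃ M1, M1 = max M 0 + η := ⟨_, rfl⟩
  have hM10 : 0 < M1 := by
    rw [hM1]
    have := le_max_right M 0
    linarith
  have hdist : ∀ z ∈ A, ∀ w ∈ A, ∀ s : ℝ, s ≤ η → max (dist z w) s ≤ M1 := by
    intro z hz w hw s hs
    rw [hM1]
    apply max_le
    · have := hM hz hw
      have h3 := le_max_left M 0
      linarith
    · have := le_max_right M 0
      linarith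
  have hreal : ∀ z ∈ A, z = ((z.re : ℝ) : ℂ) := by
    intro z hz
    apply Complex.ext
    · simp
    · simp [(hAD hz).1]
  refine ⟨c, C * (1 / η) ^ ((2 : ℝ) / 3) * (M1 ^ ((1 : ℝ) / 3) + η ^ ((1 : ℝ) / 3)) *
    2 ^ (2 * (1 / 3) : ℝ), η / 256, hc, by positivity, by positivity, ?_⟩
  intro δ hδ hlim μ hμ
  refine bds_trace R hδ hμ (by norm_num) (by positivity) ?_ ?_
  · intro z hz r hr hr0
    filter_upwards [hlim.eventually_lt_const (show (0 : ℝ) < r / 32 by positivity),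
      hlim.eventually_lt_const (div_pos R.L0_pos (by norm_num : (0:ℝ) < 4))] with i hi1 hi2
    have h := h1 z.re r (δ i) hr (by linarith) (hη z hz).1 (hη z hz).2 (hδ i) (by linarith)
      (by linarith)
    rw [← hreal z hz] at h
    exact h
  · intro z hz w hw s hs hs0'
    filter_upwards [hlim.eventually_lt_const (show (0 : ℝ) < s / 16 by positivity),
      hlim.eventually_lt_const (div_pos R.L0_pos (by norm_num : (0:ℝ) < 4))] with i hi hi2
    have h := h2 R z.re w.re s η (δ i) hs (by linarith) (hη z hz).1 (hη z hz).2 (hη w hw).1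
      (hη w hw).2 hηH (hδ i) (by linarith) (by linarith)
    rw [← hreal z hz, ← hreal w hw] at h
    refine h.trans ?_
    have hd : |z.re - w.re| = dist z w := by
      conv_rhs => rw [hreal z hz, hreal w hw]
      rw [Complex.dist_of_im_eq (by simp), Real.dist_eq]
      simp
    rw [hd]
    have hmx : 0 < max (dist z w) s := lt_max_of_lt_right hs
    obtain ⟨D, hD⟩ : ∃ D, D = max (dist z w) s := ⟨_, rfl⟩
    have hDM : D ≤ M1 := by rw [hD]; exact hdist z hz w hw s (by linarith)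
    rw [← hD] at hmx ⊢
    have e1 : (s / η) ^ ((2 : ℝ) / 3) = (1 / η) ^ ((2 : ℝ) / 3) * s ^ (2 * (1 / 3) : ℝ) := by
      rw [show (2 * (1 / 3) : ℝ) = 2 / 3 by norm_num, ← Real.mul_rpow (by positivity) hs.le]
      congr 1
      ring
    have e2 : (η / D) ^ ((1 : ℝ) / 3) = η ^ ((1 : ℝ) / 3) * D ^ (-(1 / 3) : ℝ) := by
      rw [Real.div_rpow hη0.le hmx.le, Real.rpow_neg hmx.le, div_eq_mul_inv]
    have e3 : 1 ≤ M1 ^ ((1 : ℝ) / 3) * D ^ (-(1 / 3) : ℝ) := by
      rw [Real.rpow_neg hmx.le, ← div_eq_mul_inv, ← Real.div_rpow hM10.le hmx.le]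
      apply Real.one_le_rpow _ (by norm_num)
      rw [le_div_iff₀ hmx, one_mul]
      exact hDM
    rw [e1, e2]
    have e4 : 1 + η ^ ((1 : ℝ) / 3) * D ^ (-(1 / 3) : ℝ) ≤
        (M1 ^ ((1 : ℝ) / 3) + η ^ ((1 : ℝ) / 3)) * D ^ (-(1 / 3) : ℝ) := by
      rw [add_mul]
      linarith
    calc C * ((1 / η) ^ ((2 : ℝ) / 3) * s ^ (2 * (1 / 3) : ℝ)) *
          (1 + η ^ ((1 : ℝ) / 3) * D ^ (-(1 / 3) : ℝ))
        ≤ C * ((1 / η) ^ ((2 : ℝ) / 3) * s ^ (2 * (1 / 3) : ℝ)) *
          ((M1 ^ ((1 : ℝ) / 3) + η ^ ((1 : ℝ) / 3)) * D ^ (-(1 / 3) : ℝ)) :=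
          mul_le_mul_of_nonneg_left e4 (by positivity)
      _ = _ := by ring

end Pool.Agent.Y41.BT
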