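import Pool.Agent.TH966.GB.Half
import Pool.Agent.H389R2.LV.Rsw

/-!
The exploration path near the free part of the bottom side: one-point lower bound and two-point
upper bound.
-/

set_option autoImplicit false
set_option maxHeartbeats 1000000

namespace Pool.Agent.Y41.BT

open H974 H973 H934E MeasureTheory TopologicalSpace Filter Topology Metric Set
open Pool.Agent.TH966.GB
open scoped ENNReal NNReal

/-- If the path comes close to the boundary point `x`, a small half-box is connected to a large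
distance. -/
theorem ev_half {R : Rect} {x s η δ : ℝ} (hs : 0 < s) (hsη : 8 * s ≤ η) (h1 : η ≤ x)
    (h2 : η ≤ R.B - x) (h3 : η ≤ R.H) (hδ : 0 < δ) (hδs : 16 * δ ≤ s) (hδL : 4 * δ < R.L0)
    {F : Finset Edg} (hF : F ⊆ R.edges δ) (h : (R.path δ F ∩ ball (x : ℂ) s).Nonempty) :
    BAr ⌊x / δ⌋ ⌈3 * s / δ⌉ ⌊η / (2 * δ)⌋ F := by
  obtain ⟨g1, g2, g3, g4⟩ := R.small_geom hδ hδL
  obtain ⟨k, hk⟩ : ∃ k, k = ⌊x / δ⌋ := ⟨_, rfl⟩
  obtain ⟨r, hr⟩ : ∃ r, r = ⌈3 * s / δ⌉ := ⟨_, rfl⟩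
  obtain ⟨S, hS⟩ : ∃ S, S = ⌊η / (2 * δ)⌋ := ⟨_, rfl⟩
  rw [← hk, ← hr, ← hS]
  have k1 : (k : ℝ) ≤ x / δ := by rw [hk]; exact Int.floor_le _
  have k2 : x / δ < k + 1 := by rw [hk]; exact Int.lt_floor_add_one _
  have r1 : 3 * s / δ ≤ r := by rw [hr]; exact Int.le_ceil _
  have r2 : (r : ℝ) < 3 * s / δ + 1 := by rw [hr]; exact Int.ceil_lt_add_one _
  have S1 : (S : ℝ) ≤ η / (2 * δ) := by rw [hS]; exact Int.floor_le _
  have S2 : η / (2 * δ) < S + 1 := by rw [hS]; exact Int.lt_floor_add_one _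
  have q1 : 16 ≤ s / δ := by rw [le_div_iff₀ hδ]; exact hδs
  have q2 : 8 * (s / δ) ≤ η / δ := by
    rw [← mul_div_assoc]; exact div_le_div_of_nonneg_right hsη hδ.le
  have q3 : η / (2 * δ) = (η / δ) / 2 := by field_simp
  have q4 : 3 * s / δ = 3 * (s / δ) := by ring
  have q5 : η / δ ≤ x / δ := div_le_div_of_nonneg_right h1 hδ.le
  have q6 : η / δ ≤ R.B / δ - x / δ := by
    rw [← sub_div]; exact div_le_div_of_nonneg_right h2 hδ.le
  have q7 : η / δ ≤ R.H / δ := div_le_div_of_nonneg_right h3 hδ.le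
  rw [q3] at S1 S2
  rw [q4] at r1 r2
  have hr1 : 1 ≤ r := by
    have : (0:ℝ) < r := by linarith
    exact_mod_cast this
  have hrS : r ≤ S := by
    have : (r : ℝ) < S := by linarith
    exact_mod_cast this.le
  have hSk : 1 ≤ k - S := by
    have : (0 : ℝ) < ((k - S : ℤ) : ℝ) := by push_cast; linarith
    have : 0 < k - S := by exact_mod_cast this
    omega
  have hx1 : k + S ≤ R.x1 δ := by
    have a1 : R.B / δ ≤ (⌈R.B / δ⌉ : ℝ) := Int.le_ceil _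
    have : (k : ℝ) + S ≤ (⌈R.B / δ⌉ : ℝ) - 1 := by linarith
    unfold Rect.x1
    exact_mod_cast this
  have hy1 : S < R.y1 δ := by
    have a1 : R.H / δ ≤ (⌈R.H / δ⌉ : ℝ) := Int.le_ceil _
    have : (S : ℝ) < (⌈R.H / δ⌉ : ℝ) - 2 := by linarith
    unfold Rect.y1
    exact_mod_cast this
  have hc := R.chart1 (by omega : 1 ≤ S) hSk hx1 hy1 g1 g3
  refine chart_BAr hc (by omega) hrS hF ?_
  obtain ⟨z, hz1, hz2⟩ := h
  rw [mem_ball, Complex.dist_eq] at hz2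
  have p1 := (Complex.abs_re_le_norm (z - x)).trans_lt hz2
  have p2 := (Complex.abs_im_le_norm (z - x)).trans_lt hz2
  rw [Complex.sub_re, Complex.ofReal_re] at p1
  rw [Complex.sub_im, Complex.ofReal_im, sub_zero] at p2
  obtain ⟨v, hv, hv1, hv2⟩ := R.path_near hδ hz1
  have hv0 := R.clu_nonneg (by omega) hF hv
  refine ⟨(0, 0), rfl, v, ?_, hv⟩
  have a1 : |(v.1 : ℝ) - x / δ| < s / δ + 1 := by
    have : |δ * (v.1 : ℝ) - x| < s + δ := by
      calc |δ * (v.1 : ℝ) - x| = |(z.re - x) - (z.re - δ * v.1)| := by congr 1; ring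
        _ ≤ |z.re - x| + |z.re - δ * v.1| := abs_sub _ _
        _ < s + δ := by linarith
    have e1 : (v.1 : ℝ) - x / δ = (δ * (v.1 : ℝ) - x) / δ := by field_simp
    rw [e1, abs_div, abs_of_pos hδ, div_lt_iff₀ hδ]
    have : (s / δ + 1) * δ = s + δ := by field_simp
    linarith
  have a2 : ((v.2 : ℝ) + 1) < s / δ + 1 := by
    have : δ * ((v.2 : ℝ) + 1) < s + δ := by
      have b1 := (abs_lt.mp p2).2
      have b2 := (abs_le.mp hv2).1
      linarith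
    have e1 : (v.2 : ℝ) + 1 = (δ * ((v.2 : ℝ) + 1)) / δ := by field_simp
    rw [e1, div_lt_iff₀ hδ]
    have : (s / δ + 1) * δ = s + δ := by field_simp
    linarith
  rw [abs_lt] at a1
  have b1 : ((k - r : ℤ) : ℝ) ≤ v.1 := by push_cast; linarith
  have b2 : (v.1 : ℝ) ≤ ((k + r : ℤ) : ℝ) := by push_cast; linarith
  have b3 : (v.2 : ℝ) ≤ r := by linarith
  exact ⟨⟨by exact_mod_cast b1, by exact_mod_cast b2⟩, hv0, by exact_mod_cast b3⟩

/-- The numerical data of the two-point bound. -/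
theorem num_half {x y s η δ : ℝ} (hs : 0 < s) (hsη : 64 * s ≤ η) (hδ : 0 < δ)
    (hδs : 16 * δ ≤ s) :
    1 ≤ ⌈3 * s / δ⌉ ∧ ⌈3 * s / δ⌉ ≤ ⌊η / (2 * δ)⌋ ∧
    ((⌈3 * s / δ⌉ : ℤ) : ℝ) / (⌊η / (2 * δ)⌋ : ℤ) ≤ 16 * (s / η) ∧
    ((⌊η / (2 * δ)⌋ : ℤ) : ℝ) / max |((⌊x / δ⌋ : ℤ) : ℝ) - (⌊y / δ⌋ : ℤ)| (⌈3 * s / δ⌉ : ℤ) ≤
      η / max |x - y| s := by
  have hη : 0 < η := by linarith
  obtain ⟨k, hk⟩ : ∃ k, k = ⌊x / δ⌋ := ⟨_, rfl⟩
  obtain ⟨l, hl⟩ : ∃ l, l = ⌊y / δ⌋ := ⟨_, rfl⟩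
  obtain ⟨r, hr⟩ : ∃ r, r = ⌈3 * s / δ⌉ := ⟨_, rfl⟩
  obtain ⟨S, hS⟩ : ∃ S, S = ⌊η / (2 * δ)⌋ := ⟨_, rfl⟩
  rw [← hk, ← hr, ← hS, ← hl]
  have k1 : (k : ℝ) ≤ x / δ := by rw [hk]; exact Int.floor_le _
  have k2 : x / δ < k + 1 := by rw [hk]; exact Int.lt_floor_add_one _
  have l1 : (l : ℝ) ≤ y / δ := by rw [hl]; exact Int.floor_le _
  have l2 : y / δ < l + 1 := by rw [hl]; exact Int.lt_floor_add_one _
  have r1 : 3 * s / δ ≤ r := by rw [hr]; exact Int.le_ceil _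
  have r2 : (r : ℝ) < 3 * s / δ + 1 := by rw [hr]; exact Int.ceil_lt_add_one _
  have S1 : (S : ℝ) ≤ η / (2 * δ) := by rw [hS]; exact Int.floor_le _
  have S2 : η / (2 * δ) < S + 1 := by rw [hS]; exact Int.lt_floor_add_one _
  have q1 : 16 ≤ s / δ := by rw [le_div_iff₀ hδ]; exact hδs
  have q2 : 64 * (s / δ) ≤ η / δ := by
    rw [← mul_div_assoc]; exact div_le_div_of_nonneg_right hsη hδ.le
  have q3 : η / (2 * δ) = (η / δ) / 2 := by field_simp
  have q4 : 3 * s / δ = 3 * (s / δ) := by ring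
  rw [q3] at S1 S2
  rw [q4] at r1 r2
  have hr0 : (0 : ℝ) < r := by linarith
  have hS0 : (0 : ℝ) < S := by linarith
  refine ⟨?_, ?_, ?_, ?_⟩
  · have : 0 < r := by exact_mod_cast hr0
    omega
  · have : (r : ℝ) < S := by linarith
    exact_mod_cast this.le
  · rw [div_le_iff₀ hS0]
    have c1 : η / δ / 4 ≤ S := by linarith
    have c2 : (r : ℝ) ≤ 4 * (s / δ) := by linarith
    calc (r : ℝ) ≤ 4 * (s / δ) := c2
      _ = 16 * (s / η) * (η / δ / 4) := by field_simp; norm_num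
      _ ≤ 16 * (s / η) * S := mul_le_mul_of_nonneg_left c1 (by positivity)
  · have hmx : 0 < max |x - y| s := lt_max_of_lt_right hs
    have hmx2 : 0 < max |(k : ℝ) - l| (r : ℝ) := lt_max_of_lt_right hr0
    rw [div_le_div_iff₀ hmx2 hmx]
    have hSη : (S : ℝ) * (2 * δ) ≤ η := by
      have : (S : ℝ) ≤ η / δ / 2 := S1
      have e : η / δ / 2 * (2 * δ) = η := by field_simp
      calc (S : ℝ) * (2 * δ) ≤ η / δ / 2 * (2 * δ) := mul_le_mul_of_nonneg_right this (by positivity)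
        _ = η := e
    have key : max |x - y| s ≤ 2 * δ * max |(k : ℝ) - l| (r : ℝ) := by
      have h3s : 3 * s ≤ δ * r := by
        have : 3 * (s / δ) * δ ≤ r * δ := mul_le_mul_of_nonneg_right r1 hδ.le
        have e : 3 * (s / δ) * δ = 3 * s := by field_simp
        linarith
      have hr' : (r : ℝ) ≤ max |(k : ℝ) - l| (r : ℝ) := le_max_right _ _
      have hk' : |(k : ℝ) - l| ≤ max |(k : ℝ) - l| (r : ℝ) := le_max_left _ _
      have h4 : δ * r ≤ δ * max |(k : ℝ) - l| (r : ℝ) := mul_le_mul_of_nonneg_left hr' hδ.le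
      have h5 : δ * |(k : ℝ) - l| ≤ δ * max |(k : ℝ) - l| (r : ℝ) :=
        mul_le_mul_of_nonneg_left hk' hδ.le
      apply max_le
      · have h6 : |x - y| ≤ δ * |(k : ℝ) - l| + δ := by
          have e1 : x - y = δ * ((x / δ - y / δ)) := by field_simp
          rw [e1, abs_mul, abs_of_pos hδ, ← mul_add_one]
          apply mul_le_mul_of_nonneg_left _ hδ.le
          have e2 : x / δ - y / δ = ((k : ℝ) - l) + ((x / δ - k) - (y / δ - l)) := by ring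
          rw [e2]
          refine (abs_add_le _ _).trans (add_le_add le_rfl ?_)
          rw [abs_le]
          constructor <;> linarith
        have h7 : δ ≤ δ * r := by nlinarith
        linarith
      · nlinarith
    calc (S : ℝ) * max |x - y| s ≤ S * (2 * δ * max |(k : ℝ) - l| (r : ℝ)) :=
          mul_le_mul_of_nonneg_left key hS0.le
      _ = (S * (2 * δ)) * max |(k : ℝ) - l| (r : ℝ) := by ring
      _ ≤ η * max |(k : ℝ) - l| (r : ℝ) := mul_le_mul_of_nonneg_right hSη hmx2.le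

/-- Two-point upper bound at small mesh. -/
theorem two_half_mesh : ∃ C : ℝ, 0 < C ∧ ∀ (R : Rect) (x y s η δ : ℝ), 0 < s → 64 * s ≤ η →
    η ≤ x → η ≤ R.B - x → η ≤ y → η ≤ R.B - y → η ≤ R.H → 0 < δ → 16 * δ ≤ s → 4 * δ < R.L0 →
    Q (R.edges δ) (fun F => (R.path δ F ∩ ball (x : ℂ) s).Nonempty ∧
      (R.path δ F ∩ ball (y : ℂ) s).Nonempty) ≤
      C * (s / η) ^ ((2 : ℝ) / 3) * (1 + (η / max |x - y| s) ^ ((1 : ℝ) / 3)) := by
  obtain ⟨K, hK, hb⟩ := half_two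
  refine ⟨K * 16 ^ ((2 : ℝ) / 3), by positivity, ?_⟩
  intro R x y s η δ hs hsη hx hxB hy hyB hH hδ hδs hδL
  have hη : 0 < η := by linarith
  obtain ⟨n1, n2, n3, n4⟩ := num_half (x := x) (y := y) hs hsη hδ hδs
  obtain ⟨g1, g2, g3, g4⟩ := R.small_geom hδ hδL
  have h1 : Q (R.edges δ) (fun F => (R.path δ F ∩ ball (x : ℂ) s).Nonempty ∧
      (R.path δ F ∩ ball (y : ℂ) s).Nonempty) ≤ Q (R.edges δ)
      (fun F => BAr ⌊x / δ⌋ ⌈3 * s / δ⌉ ⌊η / (2 * δ)⌋ F ∧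
        BAr ⌊y / δ⌋ ⌈3 * s / δ⌉ ⌊η / (2 * δ)⌋ F) := by
    apply Q_mono
    rintro F hF ⟨a, b⟩
    exact ⟨ev_half hs (by linarith) hx hxB hH hδ hδs hδL hF a,
      ev_half hs (by linarith) hy hyB hH hδ hδs hδL hF b⟩
  have hsub : RE (⌊x / δ⌋ - ⌊η / (2 * δ)⌋) (⌊x / δ⌋ + ⌊η / (2 * δ)⌋) 0 ⌊η / (2 * δ)⌋ ⊆
      R.edges δ := by
    rw [R.edges_eq]
    have k1 : (⌊x / δ⌋ : ℝ) ≤ x / δ := Int.floor_le _
    have k2 : x / δ < ⌊x / δ⌋ + 1 := Int.lt_floor_add_one _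
    have S1 : (⌊η / (2 * δ)⌋ : ℝ) ≤ η / (2 * δ) := Int.floor_le _
    have q1 : 16 ≤ s / δ := by rw [le_div_iff₀ hδ]; exact hδs
    have q2 : 64 * (s / δ) ≤ η / δ := by
      rw [← mul_div_assoc]; exact div_le_div_of_nonneg_right hsη hδ.le
    have q3 : η / (2 * δ) = (η / δ) / 2 := by field_simp
    have q5 : η / δ ≤ x / δ := div_le_div_of_nonneg_right hx hδ.le
    have q6 : η / δ ≤ R.B / δ - x / δ := by
      rw [← sub_div]; exact div_le_div_of_nonneg_right hxB hδ.le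
    have q7 : η / δ ≤ R.H / δ := div_le_div_of_nonneg_right hH hδ.le
    rw [q3] at S1 ⊢
    have i1 : 0 ≤ ⌊x / δ⌋ - ⌊η / δ / 2⌋ := by
      have : (-1 : ℝ) < ((⌊x / δ⌋ - ⌊η / δ / 2⌋ : ℤ) : ℝ) := by push_cast; linarith
      have : -1 < ⌊x / δ⌋ - ⌊η / δ / 2⌋ := by exact_mod_cast this
      omega
    have i2 : ⌊x / δ⌋ + ⌊η / δ / 2⌋ ≤ R.x1 δ := by
      have a1 : R.B / δ ≤ (⌈R.B / δ⌉ : ℝ) := Int.le_ceil _
      have : (⌊x / δ⌋ : ℝ) + ⌊η / δ / 2⌋ ≤ (⌈R.B / δ⌉ : ℝ) - 1 := by linarith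
      unfold Rect.x1
      exact_mod_cast this
    have i3 : ⌊η / δ / 2⌋ ≤ R.y1 δ := by
      have a1 : R.H / δ ≤ (⌈R.H / δ⌉ : ℝ) := Int.le_ceil _
      have : (⌊η / δ / 2⌋ : ℝ) ≤ (⌈R.H / δ⌉ : ℝ) - 2 := by linarith
      unfold Rect.y1
      exact_mod_cast this
    exact RE_subset (by omega) i2 le_rfl i3
  have h2 := hb ⌈3 * s / δ⌉ ⌊η / (2 * δ)⌋ ⌊x / δ⌋ ⌊y / δ⌋ n1 n2 (R.edges δ) hsub
  refine h1.trans (h2.trans ?_)
  have hr0 : (0 : ℝ) < (⌈3 * s / δ⌉ : ℤ) := by exact_mod_cast (by omega : 0 < ⌈3 * s / δ⌉)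
  have hS0 : (0 : ℝ) < (⌊η / (2 * δ)⌋ : ℤ) := by exact_mod_cast (by omega : 0 < ⌊η / (2 * δ)⌋)
  have e1 : (((⌈3 * s / δ⌉ : ℤ) : ℝ) / (⌊η / (2 * δ)⌋ : ℤ)) ^ ((2 : ℝ) / 3) ≤
      16 ^ ((2 : ℝ) / 3) * (s / η) ^ ((2 : ℝ) / 3) := by
    rw [← Real.mul_rpow (by norm_num) (by positivity)]
    exact Real.rpow_le_rpow (by positivity) n3 (by norm_num)
  have e2 : (((⌊η / (2 * δ)⌋ : ℤ) : ℝ) / max |((⌊x / δ⌋ : ℤ) : ℝ) - (⌊y / δ⌋ : ℤ)|
      (⌈3 * s / δ⌉ : ℤ)) ^ ((1 : ℝ) / 3) ≤ (η / max |x - y| s) ^ ((1 : ℝ) / 3) := by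
    apply Real.rpow_le_rpow _ n4 (by norm_num)
    exact div_nonneg hS0.le (le_max_of_le_right hr0.le)
  have e3 : 0 ≤ (((⌊η / (2 * δ)⌋ : ℤ) : ℝ) / max |((⌊x / δ⌋ : ℤ) : ℝ) - (⌊y / δ⌋ : ℤ)|
      (⌈3 * s / δ⌉ : ℤ)) ^ ((1 : ℝ) / 3) := by
    apply Real.rpow_nonneg
    exact div_nonneg hS0.le (le_max_of_le_right hr0.le)
  calc K * (((⌈3 * s / δ⌉ : ℤ) : ℝ) / (⌊η / (2 * δ)⌋ : ℤ)) ^ ((2 : ℝ) / 3) *
        (1 + (((⌊η / (2 * δ)⌋ : ℤ) : ℝ) / max |((⌊x / δ⌋ : ℤ) : ℝ) - (⌊y / δ⌋ : ℤ)|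
      (⌈3 * s / δ⌉ : ℤ)) ^ ((1 : ℝ) / 3))
      ≤ K * (16 ^ ((2 : ℝ) / 3) * (s / η) ^ ((2 : ℝ) / 3)) *
        (1 + (η / max |x - y| s) ^ ((1 : ℝ) / 3)) := by
        apply mul_le_mul (mul_le_mul_of_nonneg_left e1 hK.le) (by linarith) (by positivity)
          (by positivity)
    _ = _ := by ring

/-- One-point lower bound at small mesh. -/
theorem one_half_mesh (R : Rect) {η : ℝ} (hη : 0 < η) (hηH : η ≤ R.H) : ∃ c : ℝ, 0 < c ∧
    ∀ (x r δ : ℝ), 0 < r → 64 * r ≤ η → η ≤ x → η ≤ R.B - x → 0 < δ → 32 * δ ≤ r →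
      4 * δ < R.L0 →
      c * r ^ ((1 : ℝ) / 3) ≤
        Q (R.edges δ) (fun F => (R.path δ F ∩ closedBall (x : ℂ) r).Nonempty) := by
  obtain ⟨c1, hc1, hlo⟩ := BAr_ge
  obtain ⟨κ, hκ⟩ : ∃ κ : ℕ, (R.A + R.B) / η * 32 + 8 ≤ κ := exists_nat_ge _
  obtain ⟨c2, hc2, hrsw⟩ := Pool.Agent.H389R2.LV.rsw_long κ
  have hR0 := R.hA
  have hR1 := R.hB
  have hkp := kp_pos
  refine ⟨c1 * (1 / (16 * η)) ^ ((1 : ℝ) / 3) * kp * kp * c2, by positivity, ?_⟩
  intro x r δ hr hrη hx hxB hδ hδr hδL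
  obtain ⟨g1, g2, g3, g4⟩ := R.small_geom hδ hδL
  obtain ⟨k, hk⟩ : ∃ k, k = ⌊x / δ⌋ := ⟨_, rfl⟩
  obtain ⟨n, hn⟩ : ∃ n, n = ⌊η / (8 * δ)⌋ := ⟨_, rfl⟩
  obtain ⟨m, hm⟩ : ∃ m, m = ⌊r / (8 * δ)⌋ := ⟨_, rfl⟩
  have k1 : (k : ℝ) * δ ≤ x := by
    have : (k : ℝ) ≤ x / δ := by rw [hk]; exact Int.floor_le _
    rwa [le_div_iff₀ hδ] at this
  have k2 : x < ((k : ℝ) + 1) * δ := by
    have : x / δ < k + 1 := by rw [hk]; exact Int.lt_floor_add_one _
    rwa [div_lt_iff₀ hδ] at this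
  have n1 : (n : ℝ) * (8 * δ) ≤ η := by
    have : (n : ℝ) ≤ η / (8 * δ) := by rw [hn]; exact Int.floor_le _
    rwa [le_div_iff₀ (by positivity)] at this
  have n2 : η < ((n : ℝ) + 1) * (8 * δ) := by
    have : η / (8 * δ) < n + 1 := by rw [hn]; exact Int.lt_floor_add_one _
    rwa [div_lt_iff₀ (by positivity)] at this
  have m1 : (m : ℝ) * (8 * δ) ≤ r := by
    have : (m : ℝ) ≤ r / (8 * δ) := by rw [hm]; exact Int.floor_le _
    rwa [le_div_iff₀ (by positivity)] at this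
  have m2 : r < ((m : ℝ) + 1) * (8 * δ) := by
    have : r / (8 * δ) < m + 1 := by rw [hm]; exact Int.lt_floor_add_one _
    rwa [div_lt_iff₀ (by positivity)] at this
  have hm3 : 3 ≤ m := by
    have : (2 : ℝ) < m := by
      by_contra hcon
      push Not at hcon
      nlinarith
    have : 2 < m := by exact_mod_cast this
    omega
  have hmn : 9 * m ≤ n := by
    have : ((9 * m : ℤ) : ℝ) ≤ (n : ℝ) := by
      push_cast
      by_contra hcon
      push Not at hcon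
      nlinarith
    exact_mod_cast this
  have hm0 : (0 : ℝ) < m := by exact_mod_cast (by omega : 0 < m)
  have hn0 : (0 : ℝ) < n := by exact_mod_cast (by omega : 0 < n)
  -- the geometry
  have i1 : 0 < k - 3 * n := by
    have : (0 : ℝ) < ((k - 3 * n : ℤ) : ℝ) := by
      push_cast
      by_contra hcon
      push Not at hcon
      nlinarith
    exact_mod_cast this
  have i2 : k + 3 * n ≤ R.x1 δ := by
    have a1 : R.B / δ ≤ (⌈R.B / δ⌉ : ℝ) := Int.le_ceil _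
    have a2 : ((k : ℝ) + 3 * n + 1) ≤ R.B / δ := by
      rw [le_div_iff₀ hδ]
      nlinarith
    have : (k : ℝ) + 3 * n ≤ (⌈R.B / δ⌉ : ℝ) - 1 := by linarith
    unfold Rect.x1
    exact_mod_cast this
  have i3 : 3 * n ≤ R.y1 δ := by
    have a1 : R.H / δ ≤ (⌈R.H / δ⌉ : ℝ) := Int.le_ceil _
    have a2 : (3 * (n : ℝ) + 2) ≤ R.H / δ := by
      rw [le_div_iff₀ hδ]
      nlinarith
    have : 3 * (n : ℝ) ≤ (⌈R.H / δ⌉ : ℝ) - 2 := by linarith
    unfold Rect.y1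
    exact_mod_cast this
  have hbo3 : RE (k - 3 * n) (k + 3 * n) 0 (3 * n) ⊆ R.edges δ := by
    rw [R.edges_eq]
    exact RE_subset (by omega) i2 le_rfl i3
  have hbo1 : RE (k - 3 * m) (k + 3 * m) 0 (3 * m) ⊆ R.edges δ :=
    (RE_subset (by omega) (by omega) le_rfl (by omega)).trans hbo3
  have hLsub : LRE (R.x0 δ) k 0 n ⊆ R.edges δ := by
    rw [R.edges_eq]
    exact LRE_subset_RE.trans (RE_subset le_rfl (by omega) le_rfl (by omega))
  -- the probabilities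
  have p1 : c1 * (th m / th (3 * n)) ≤ Q (R.edges δ) (BAr k m (3 * n)) :=
    hlo k m (3 * n) (by omega) (by omega) (R.edges δ) hbo3
  have p2 : kp ≤ Q (R.edges δ) (HC k n (3 * n)) := pr_HC (by omega) hbo3
  have p2' : kp ≤ Q (R.edges δ) (HC k m (3 * m)) := pr_HC (by omega) hbo1
  have p3 : c2 ≤ Q (R.edges δ) (LRc (R.x0 δ) k 0 n) := by
    have h1 : Q (R.edges δ) (LRc (R.x0 δ) k 0 n) = hh (1 / 2) (k - R.x0 δ) (n - 0) :=
      pr_LRc (1 / 2) hLsub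
    rw [h1, sub_zero]
    apply hrsw
    · omega
    · omega
    · have h2 : ((k - R.x0 δ : ℤ) : ℝ) ≤ ((κ * n : ℤ) : ℝ) := by
        push_cast
        obtain ⟨⟨x1, x2⟩, -⟩ := R.small_geom2 hδ
        have h4 : -(R.x0 δ : ℝ) * δ ≤ R.A := by
          have : -(R.x0 δ : ℝ) < R.A / δ := by linarith
          rw [lt_div_iff₀ hδ] at this
          exact this.le
        have h5 : ((k : ℝ) - R.x0 δ) * δ ≤ R.A + R.B := by nlinarith
        have h6 : R.A + R.B ≤ (κ : ℝ) * n * δ := by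
          have h7 : (R.A + R.B) / η * 32 ≤ κ := by linarith
          have h8 : η ≤ 32 * (n * δ) := by nlinarith
          have h9 : R.A + R.B = (R.A + R.B) / η * η := by field_simp
          have h10 : 0 ≤ (R.A + R.B) / η := by positivity
          have h11 : (R.A + R.B) / η * η ≤ (R.A + R.B) / η * (32 * (n * δ)) :=
            mul_le_mul_of_nonneg_left h8 h10
          have h12 : (R.A + R.B) / η * 32 * (n * δ) ≤ κ * (n * δ) :=
            mul_le_mul_of_nonneg_right h7 (by positivity)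
          nlinarith
        exact le_of_mul_le_mul_right (h5.trans h6) hδ
      exact_mod_cast h2
  have a1 := hmul (BAr_incr (R.edges δ) k m (3 * n)) (HC_incr (R.edges δ) k n (3 * n)) hkp.le p1 p2
  have c3 : IncrE (R.edges δ) (fun F => BAr k m (3 * n) F ∧ HC k n (3 * n) F) :=
    fun F G hFG _ hF => ⟨hF.1.mono hFG, hF.2.mono hFG⟩
  have a2 := hmul c3 (HC_incr (R.edges δ) k m (3 * m)) hkp.le a1 p2'
  have c4 : IncrE (R.edges δ) (fun F => (BAr k m (3 * n) F ∧ HC k n (3 * n) F) ∧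
      HC k m (3 * m) F) :=
    fun F G hFG _ hF => ⟨⟨hF.1.1.mono hFG, hF.1.2.mono hFG⟩, hF.2.mono hFG⟩
  have a3 := hmul c4 (LRc_incr (R.edges δ) (R.x0 δ) k 0 n) hc2.le a2 p3
  refine le_trans ?_ (a3.trans (Q_mono ?_))
  · have h7 : (1 / (16 * η)) ^ ((1 : ℝ) / 3) * r ^ ((1 : ℝ) / 3) ≤ th m / th (3 * n) := by
      have e : th m / th (3 * n) = ((m : ℝ) / ((3 * n : ℤ) : ℝ)) ^ ((1 : ℝ) / 3) := by
        unfold th
        rw [Real.div_rpow hm0.le (by push_cast; positivity)]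
      rw [e, ← Real.mul_rpow (by positivity) hr.le]
      apply Real.rpow_le_rpow (by positivity) _ (by norm_num)
      push_cast
      rw [le_div_iff₀ (by positivity)]
      have h8 : 1 / (16 * η) * r * (3 * n) * δ ≤ m * δ := by
        have e3 : 1 / (16 * η) * r * (3 * n) * δ = r * (3 / 16) * (n * δ / η) := by
          field_simp
        rw [e3]
        have h9 : n * δ / η ≤ 1 / 8 := by
          rw [div_le_iff₀ hη]; linarith
        have h10 : 0 ≤ n * δ / η := by positivity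
        nlinarith
      exact le_of_mul_le_mul_right h8 hδ
    have h8 := mul_le_mul_of_nonneg_left h7 hc1.le
    calc c1 * (1 / (16 * η)) ^ ((1 : ℝ) / 3) * kp * kp * c2 * r ^ ((1 : ℝ) / 3)
        = (c1 * ((1 / (16 * η)) ^ ((1 : ℝ) / 3) * r ^ ((1 : ℝ) / 3))) * (kp * kp * c2) := by ring
      _ ≤ (c1 * (th m / th (3 * n))) * (kp * kp * c2) :=
          mul_le_mul_of_nonneg_right h8 (by positivity)
      _ = _ := by ring
  · -- the deterministic part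
    rintro F hF ⟨⟨⟨hE, hC⟩, hC'⟩, hL⟩
    obtain ⟨u, w, u1, u2, u3⟩ := hE
    obtain ⟨y, y', y1, y2, y3⟩ := hL
    obtain ⟨l', _, _, hz'⟩ := hc_meet (by omega) (by omega) hC
    obtain ⟨l, l1, l2, hz⟩ := hc_meet (by omega) (by omega) hC'
    have r1 := hz' u w (by unfold inR at u1 ⊢; omega) u2 u3
    -- the crossing
    obtain ⟨w2, w21, _, w22⟩ := exitG (k := k) (R := 3 * n) (by omega)
      (G := ↑F ∩ ↑(LRE (R.x0 δ) k 0 n)) (fun e he _ => RE_nonneg (LRE_subset_RE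
        (Finset.mem_coe.mp he.2)))
      (u := (k, y')) (v := (R.x0 δ, y)) (by unfold inR; simp only; omega) y3.symm
      (by left; show R.x0 δ ≤ k - 3 * n; omega)
    have r2 := hz' (k, y') w2 (by unfold inR; simp only; omega) w21
      (w22.mono (by rintro e ⟨⟨he1, _⟩, he2⟩; exact ⟨he1, he2⟩))
    -- the small circuit
    obtain ⟨w3, w31, _, w32⟩ := exitG (k := k) (R := 3 * m) (by omega)
      (G := ↑F ∩ ↑(RE (k - 3 * n) (k + 3 * n) 0 (3 * n))) (fun e he _ => RE_nonneg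
        (Finset.mem_coe.mp he.2))
      (u := u) (v := w) (by unfold inR at u1 ⊢; omega) u3 (by omega)
    have r3 := hz u w3 u1 w31 (w32.mono (by rintro e ⟨⟨he1, _⟩, he2⟩; exact ⟨he1, he2⟩))
    have r4 : Reach (R.wired δ) (0, 0) (R.x0 δ, y) :=
      Pool.Agent.H389R2.CD.wired_left R g1.le (by omega) (by omega)
    have r5 : W (R.wired δ) F (l, 0) := by
      show Reach (↑F ∪ R.wired δ) (0, 0) (l, 0)
      refine (r4.mono Set.subset_union_right).trans ?_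
      refine Reach.trans (y3.mono (Set.inter_subset_left.trans Set.subset_union_left)) ?_
      refine Reach.trans (r2.mono (Set.inter_subset_left.trans Set.subset_union_left)) ?_
      refine Reach.trans (r1.symm.mono (Set.inter_subset_left.trans Set.subset_union_left)) ?_
      exact r3.mono (Set.inter_subset_left.trans Set.subset_union_left)
    have hmem := R.mem_path (δ := δ) (F := F) (k := l) (by omega) (by omega) r5
    refine ⟨_, hmem, ?_⟩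
    rw [mem_closedBall, Complex.dist_eq]
    refine (Complex.norm_le_abs_re_add_abs_im _).trans ?_
    simp only [Complex.sub_re, Complex.sub_im, Complex.ofReal_re, Complex.ofReal_im, sub_zero]
    have a3' : (l : ℝ) ≤ ((k - m : ℤ) : ℝ) := by exact_mod_cast l2
    have a4 : ((k - 3 * m : ℤ) : ℝ) ≤ (l : ℝ) := by exact_mod_cast l1
    push_cast at a3' a4
    have f1 := mul_le_mul_of_nonneg_left a3' hδ.le
    have f2 := mul_le_mul_of_nonneg_left a4 hδ.le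
    have t1 : |δ * (l : ℝ) - x| ≤ r * (3 / 8) + δ := by
      rw [abs_le]
      constructor <;> nlinarith
    have t2 : |δ / 2| ≤ δ := by
      rw [abs_of_pos (by positivity)]
      linarith
    linarith

end Pool.Agent.Y41.BT
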